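import Pool.Agent.H2.Box.Asym

/-!
# The exponential growth rate of `k`-piercing box partitions is `2`

For every fixed `k ≥ 2` one has `p_box(d, k) ≤ 2 ^ d * (k d) ^ (72 d ^ (3/4))`, so that no
`ε > 0` satisfies `p_box(d, k) ≥ (2 + ε) ^ d` for all `d ≥ 1`: this disproves Q1 for every
`k ≥ 3`.

Outline of the proof.  Identify the coordinates with points of the plane `F_q × F_q`, with
`d ≤ q ^ 2`.  Every vertex `b` of the cube `{0,1}^d` is coloured by the sum of the points at
its ones, and *listens* to the coordinates lying on the line named by its colour: at most `q`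
coordinates.  Two neighbours of a vertex along different directions have different colours
(within each of the two classes up / down), and `θ` points miss at most `q ^ 3 / θ` lines.  The
alphabet consists of a zero letter, a one letter, and marked letters; a point of the product is
read coordinate by coordinate, deciding adaptively how finely the letters of the listened
coordinates have to be resolved.  A block is then determined by its vertex `b`, by at most
`θ + q + 2 (q ^ 3 / θ)` small pieces of data and by `q` further ones.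
-/

namespace Pool.Agent.Results.MP_7268ce_co.GrowthRateTwo

open Filter Topology Pool.Agent.H2.Box

/-- Q1 of MP_7268ce_co is false for every `k ≥ 3`; in fact the exponential growth rate is
exactly `2`. -/
theorem result :
    (∀ d k : ℕ, ∀ᶠ n : ℕ in atTop, pBoxN n d k = pBox d k) ∧
    (∀ k : ℕ, 3 ≤ k → ¬ ∃ ε : ℝ, 0 < ε ∧ ∀ d : ℕ, 1 ≤ d → (2 + ε) ^ d ≤ (pBox d k : ℝ)) ∧
    (∀ k : ℕ, 2 ≤ k → ∀ ε : ℝ, 0 < ε → ∀ᶠ d : ℕ in atTop, (pBox d k : ℝ) < (2 + ε) ^ d) ∧
    (∀ d k : ℕ, 1 ≤ d → 2 ≤ k →
      (pBox d k : ℝ) ≤ 2 ^ d * ((k : ℝ) * d) ^ (72 * (d : ℝ) ^ (3 / 4 : ℝ))) ∧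
    (∀ k : ℕ, 2 ≤ k → Tendsto (fun d : ℕ => (pBox d k : ℝ) ^ (1 / (d : ℝ))) atTop (𝓝 2)) := by
  refine ⟨fun d k => ?_, fun k hk => ?_, fun k hk ε hε => eventually_lt hk hε,
    fun d k hd hk => pBox_le_closed hd hk, fun k hk => tendsto_root hk⟩
  · have h := tendsto_pBoxN d k
    rw [nhds_discrete, tendsto_pure] at h
    exact h
  · rintro ⟨ε, hε, h⟩
    have h1 := eventually_lt (k := k) (by omega) hε
    obtain ⟨d, hd, hd1⟩ := (h1.and (eventually_ge_atTop 1)).exists
    exact absurd hd (not_lt.mpr (h d hd1))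

end Pool.Agent.Results.MP_7268ce_co.GrowthRateTwo
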